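import Pool.Agent.Helper40.TWM.Stmts
import Pool.Agent.Helper96.JZ.LMF

/-! MCE: means of stationary positive definite kernels (MP_7a8f48_an). -/

open Finset Filter MeasureTheory Topology
open scoped ComplexConjugate InnerProductSpace

namespace Pool.Agent.Helper96.TWM

open Pool.Agent.Helper40.TWM
open Pool.Agent.Helper40.DZ (SK)
open Pool.Agent.Helper40.JZ (LM ST_LMF lmf_mul)

/-- the double means determine the single means -/
theorem mce_real {r Q : ℕ → ℝ} {C L : ℝ} (hr : ∀ j, |r j| ≤ C)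
    (hQ : ∀ H, Q (H + 1) = Q H + 2 * ∑ h ∈ range (H + 1), r h - r 0)
    (hL : Tendsto (fun H : ℕ => Q H / (H : ℝ) ^ 2) atTop (𝓝 L)) :
    Tendsto (fun H : ℕ => (∑ h ∈ range H, r h) / (H : ℝ)) atTop (𝓝 L) := by
  have hC : 0 ≤ C := (abs_nonneg _).trans (hr 0)
  obtain ⟨s, hs⟩ : ∃ s : ℕ → ℝ, s = fun H => ∑ h ∈ range H, r h := ⟨_, rfl⟩
  have hsH : ∀ H, ∑ h ∈ range H, r h = s H := fun H => by rw [hs]
  simp only [hsH] at hQ ⊢
  have h1 : ∀ H i, |s (H + i) - s H| ≤ C * i := by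
    intro H i
    induction i with
    | zero => simp
    | succ i ih =>
      have h2 : s (H + (i + 1)) = s (H + i) + r (H + i) := by
        rw [hs, ← add_assoc]
        exact sum_range_succ _ _
      rw [h2]
      have h3 : |s (H + i) + r (H + i) - s H| ≤ |s (H + i) - s H| + |r (H + i)| := by
        have := abs_add_le (s (H + i) - s H) (r (H + i))
        rwa [show s (H + i) - s H + r (H + i) = s (H + i) + r (H + i) - s H by ring] at this
      push_cast
      linarith [hr (H + i)]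
  have h2 : ∀ H K : ℕ, |Q (H + K) - Q H - 2 * K * s H| ≤ C * K * (K + 2) := by
    intro H K
    induction K with
    | zero => simp
    | succ K ih =>
      have h3 : Q (H + (K + 1)) = Q (H + K) + 2 * s (H + (K + 1)) - r 0 := hQ (H + K)
      have h4 := h1 H (K + 1)
      have h5 : |Q (H + (K + 1)) - Q H - 2 * ((K + 1 : ℕ) : ℝ) * s H| ≤
          |Q (H + K) - Q H - 2 * K * s H| + (2 * |s (H + (K + 1)) - s H| + |r 0|) := by
        rw [h3]
        have e : Q (H + K) + 2 * s (H + (K + 1)) - r 0 - Q H - 2 * ((K + 1 : ℕ) : ℝ) * s H =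
            (Q (H + K) - Q H - 2 * K * s H) + (2 * (s (H + (K + 1)) - s H) - r 0) := by
          push_cast
          ring
        rw [e]
        refine (abs_add_le _ _).trans ?_
        have h6 : |2 * (s (H + (K + 1)) - s H) - r 0| ≤ 2 * |s (H + (K + 1)) - s H| + |r 0| := by
          refine (abs_sub _ _).trans ?_
          rw [abs_mul, abs_two]
        linarith
      have h7 := hr 0
      push_cast at h4 h5 ⊢
      have h8 : C * (K + 1) * (K + 1 + 2) = C * K * (K + 2) + (2 * (C * (K + 1)) + C) := by ring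
      rw [h8]
      linarith
  rw [Metric.tendsto_atTop]
  intro δ hδ
  obtain ⟨ε, hε⟩ : ∃ ε : ℝ, ε = min (1 / 2) (δ / (4 * (2 * C + |L| + 1))) := ⟨_, rfl⟩
  have hden : 0 < 4 * (2 * C + |L| + 1) := by positivity
  have hε0 : 0 < ε := by
    rw [hε]
    positivity
  have hε1 : ε ≤ 1 / 2 := hε ▸ min_le_left _ _
  have hε2 : ε * (4 * (2 * C + |L| + 1)) ≤ δ := by
    have : ε ≤ δ / (4 * (2 * C + |L| + 1)) := hε ▸ min_le_right _ _
    rwa [le_div_iff₀ hden] at this
  obtain ⟨η, hη⟩ : ∃ η : ℝ, η = ε * δ / 10 := ⟨_, rfl⟩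
  have hη0 : 0 < η := by
    rw [hη]
    positivity
  obtain ⟨n₀, hn₀⟩ := (Metric.tendsto_atTop.1 hL) η hη0
  have hQn : ∀ n ≥ n₀, 1 ≤ n → |Q n - L * (n : ℝ) ^ 2| ≤ η * (n : ℝ) ^ 2 := by
    intro n hn hn1
    have h3 := (hn₀ n hn).le
    have hn2 : (0 : ℝ) < (n : ℝ) ^ 2 := by
      have : (0 : ℝ) < n := by exact_mod_cast hn1
      positivity
    rw [Real.dist_eq] at h3
    have h4 : Q n - L * (n : ℝ) ^ 2 = (Q n / (n : ℝ) ^ 2 - L) * (n : ℝ) ^ 2 := by
      field_simp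
    rw [h4, abs_mul, abs_of_pos hn2]
    exact mul_le_mul_of_nonneg_right h3 hn2.le
  refine ⟨max (max n₀ 1) (⌈1 / ε⌉₊), fun H hH => ?_⟩
  have hH1 : 1 ≤ H := (le_max_right n₀ 1).trans ((le_max_left _ _).trans hH)
  have hHn : n₀ ≤ H := (le_max_left n₀ 1).trans ((le_max_left _ _).trans hH)
  have hHε : 1 ≤ ε * H := by
    have h3 : (1 / ε) ≤ (H : ℝ) := (Nat.le_ceil _).trans (by exact_mod_cast (le_max_right _ _).trans hH)
    rw [div_le_iff₀ hε0] at h3
    linarith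
  have hHp : (0 : ℝ) < H := by exact_mod_cast hH1
  obtain ⟨K, hK⟩ : ∃ K : ℕ, K = ⌊ε * (H : ℝ)⌋₊ + 1 := ⟨_, rfl⟩
  have hK1 : ε * H < (K : ℝ) := by
    rw [hK]
    push_cast
    exact Nat.lt_floor_add_one _
  have hK2 : (K : ℝ) ≤ ε * H + 1 := by
    rw [hK]
    push_cast
    have := Nat.floor_le (a := ε * (H : ℝ)) (by positivity)
    linarith
  have hKp : (0 : ℝ) < K := lt_of_lt_of_le (by positivity) hK1.le
  have hK3 : (K : ℝ) ≤ 2 * ε * H := by linarith
  have hK4 : (K : ℝ) ≤ H := by nlinarith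
  have hK5 : (K : ℝ) + 2 ≤ 4 * ε * H := by linarith
  have e1 := h2 H K
  have e2 := hQn H hHn hH1
  have e3 := hQn (H + K) (hHn.trans (Nat.le_add_right _ _)) (hH1.trans (Nat.le_add_right _ _))
  have e4 : |2 * K * (s H - L * H)| ≤ C * K * (K + 2) + |L| * (K : ℝ) ^ 2 +
      (η * ((H + K : ℕ) : ℝ) ^ 2 + η * (H : ℝ) ^ 2) := by
    have e : 2 * K * (s H - L * H) = -(Q (H + K) - Q H - 2 * K * s H) + L * (K : ℝ) ^ 2 +
        ((Q (H + K) - L * ((H + K : ℕ) : ℝ) ^ 2) - (Q H - L * (H : ℝ) ^ 2)) := by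
      push_cast
      ring
    rw [e]
    refine (abs_add_le _ _).trans (add_le_add ((abs_add_le _ _).trans (add_le_add ?_ ?_)) ?_)
    · rw [abs_neg]
      exact e1
    · rw [abs_mul, abs_of_nonneg (by positivity : (0 : ℝ) ≤ (K : ℝ) ^ 2)]
    · exact (abs_sub _ _).trans (add_le_add e3 e2)
  have e5 : C * K * (K + 2) ≤ K * H * (4 * ε * C) := by
    have := mul_le_mul_of_nonneg_left hK5 (mul_nonneg hC hKp.le)
    linarith
  have e6 : |L| * (K : ℝ) ^ 2 ≤ K * H * (2 * ε * |L|) := by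
    have := mul_le_mul_of_nonneg_left hK3 (mul_nonneg (abs_nonneg L) hKp.le)
    nlinarith
  have e7 : η * ((H + K : ℕ) : ℝ) ^ 2 + η * (H : ℝ) ^ 2 ≤ K * H * (δ / 2) := by
    have h3 : ((H + K : ℕ) : ℝ) ≤ 2 * H := by
      push_cast
      linarith
    have h4 : ((H + K : ℕ) : ℝ) ^ 2 ≤ (2 * (H : ℝ)) ^ 2 := pow_le_pow_left₀ (by positivity) h3 2
    have h5 : ε * (H : ℝ) ^ 2 ≤ K * H := by nlinarith
    have h6 : η * ((H + K : ℕ) : ℝ) ^ 2 + η * (H : ℝ) ^ 2 ≤ η * (5 * (H : ℝ) ^ 2) := by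
      have := mul_le_mul_of_nonneg_left h4 hη0.le
      nlinarith
    refine h6.trans ?_
    have h7 : η * (5 * (H : ℝ) ^ 2) = (ε * (H : ℝ) ^ 2) * (δ / 2) := by
      rw [hη]
      ring
    rw [h7]
    exact mul_le_mul_of_nonneg_right h5 (by positivity)
  have e8 : |2 * K * (s H - L * H)| = K * H * (2 * |s H / H - L|) := by
    have : 2 * K * (s H - L * H) = (K * H) * (2 * (s H / H - L)) := by
      field_simp
    rw [this, abs_mul, abs_mul 2, abs_two, abs_of_pos (mul_pos hKp hHp)]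
  have e9 : K * H * (2 * |s H / H - L|) ≤ K * H * (4 * ε * C + 2 * ε * |L| + δ / 2) := by
    rw [← e8]
    refine e4.trans ?_
    linarith
  have e10 : 2 * |s H / H - L| ≤ 4 * ε * C + 2 * ε * |L| + δ / 2 :=
    le_of_mul_le_mul_left e9 (mul_pos hKp hHp)
  rw [Real.dist_eq]
  nlinarith [abs_nonneg L]

theorem mce_one {a : ℕ → ℕ → ℝ} (ha : SK a) {L : ℝ}
    (hL : Tendsto (fun H : ℕ => (∑ h ∈ range H, ∑ h' ∈ range H, a h h') / (H : ℝ) ^ 2) atTop
      (𝓝 L)) :
    Tendsto (fun H : ℕ => (∑ h ∈ range H, a 0 h) / (H : ℝ)) atTop (𝓝 L) := by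
  obtain ⟨⟨V, i1, i2, i3, w, hw⟩, hst⟩ := ha
  have hsym : ∀ k k', a k k' = a k' k := by
    intro k k'
    have h1 : ((a k k' : ℝ) : ℂ) = ((a k' k : ℝ) : ℂ) := by
      rw [← hw, ← hw, ← inner_conj_symm, hw, Complex.conj_ofReal]
    exact_mod_cast h1
  have hdiag : ∀ k, a k k = a 0 0 := by
    intro k
    induction k with
    | zero => rfl
    | succ k ih => rw [hst, ih]
  have hnorm : ∀ k, ‖w k‖ ^ 2 = a 0 0 := by
    intro k
    have h1 : (inner ℂ (w k) (w k) : ℂ) = ((‖w k‖ ^ 2 : ℝ) : ℂ) := by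
      rw [inner_self_eq_norm_sq_to_K]
      push_cast
      rfl
    rw [hw, hdiag] at h1
    exact_mod_cast h1.symm
  have hbd : ∀ k k', |a k k'| ≤ a 0 0 := by
    intro k k'
    have h1 : ‖(inner ℂ (w k) (w k') : ℂ)‖ ≤ ‖w k‖ * ‖w k'‖ := norm_inner_le_norm _ _
    rw [hw, Complex.norm_real, Real.norm_eq_abs] at h1
    have h2 := hnorm k
    have h3 := hnorm k'
    nlinarith [sq_nonneg (‖w k‖ - ‖w k'‖)]
  have hshift : ∀ n i j : ℕ, a (i + n) (j + n) = a i j := by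
    intro n
    induction n with
    | zero => intro i j; rfl
    | succ n ih => intro i j; rw [← add_assoc, ← add_assoc, hst, ih]
  refine mce_real (r := fun j => a 0 j) (Q := fun H => ∑ h ∈ range H, ∑ h' ∈ range H, a h h')
    (C := a 0 0) (fun j => hbd 0 j) (fun H => ?_) hL
  have h1 : ∑ h ∈ range H, a h H = ∑ h ∈ range (H + 1), a 0 h - a 0 0 := by
    rw [sum_range_succ', add_sub_cancel_right, ← sum_range_reflect]
    refine sum_congr rfl fun h hh => ?_
    have hh' : h < H := mem_range.1 hh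
    have h3 := hshift (H - 1 - h) 0 (h + 1)
    rw [zero_add, show h + 1 + (H - 1 - h) = H by omega] at h3
    exact h3
  show ∑ h ∈ range (H + 1), ∑ h' ∈ range (H + 1), a h h' = ∑ h ∈ range H, ∑ h' ∈ range H, a h h' +
    2 * ∑ h ∈ range (H + 1), a 0 h - a 0 0
  have h2 : ∑ h ∈ range (H + 1), ∑ h' ∈ range (H + 1), a h h' =
      ∑ h ∈ range H, ∑ h' ∈ range H, a h h' + ∑ h ∈ range H, a h H +
        (∑ h ∈ range H, a H h + a H H) := by
    rw [sum_range_succ, sum_range_succ (fun h' => a H h')]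
    congr 1
    rw [← sum_add_distrib]
    exact sum_congr rfl fun h _ => sum_range_succ _ _
  have h3 : ∑ h ∈ range H, a H h = ∑ h ∈ range H, a h H := sum_congr rfl fun h _ => hsym _ _
  rw [h2, h3, h1, hdiag H]
  ring

theorem st_MCE (hL : ST_LMF) : ST_MCE := by
  intro N hN m hm
  have h1 := (hL N hN).1 m hm
  have h2 := mce_one (lmf_mul hN m) h1
  exact h2

end Pool.Agent.Helper96.TWM
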