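import Pool.Agent.Helper40.TWM.Stmts
import Pool.Agent.Helper98.TW.Basic
import Pool.Agent.Helper73.TWR.Tool
import Pool.Agent.Helper96.JZ.NTF

/-! MNK: elementary properties of the masses (MP_7a8f48_an). -/

set_option linter.unusedSectionVars false

open Finset Filter MeasureTheory Topology
open scoped ComplexConjugate InnerProductSpace

namespace Pool.Agent.Helper96.TWM

open Pool.Agent.Helper40.TWM
open Pool.Agent.Helper98.TW (SA AM Sys IA Lm bo ia_bo)
open Pool.Agent.Helper16.AZ (T E Op mm)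
open Pool.Agent.Helper16.BZ (co Wk EE EQ)
open Pool.Agent.Helper40.DZ (SK)

section masses

variable {Ω : Type} [MeasurableSpace Ω] {μ : Measure Ω} [IsProbabilityMeasure μ]
  {S S' : Ω → Ω} {d : ℕ} {φ : Ω → Op d} {c : Ω → E d}

theorem co_unitary (hφ : ∀ x, φ x ∈ unitary (Op d)) (n : ℕ) (x : Ω) :
    co S φ n x ∈ unitary (Op d) := by
  induction n with
  | zero => exact one_mem _
  | succ n ih => exact mul_mem (hφ _) ih

theorem co_aesm (hS : MeasurePreserving S μ μ) (hφ : AEStronglyMeasurable φ μ) (n : ℕ) :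
    AEStronglyMeasurable (co S φ n) μ := by
  induction n with
  | zero => exact aestronglyMeasurable_const
  | succ n ih =>
    have h1 : AEStronglyMeasurable (fun x => φ (S^[n] x)) μ :=
      hφ.comp_quasiMeasurePreserving (hS.iterate n).quasiMeasurePreserving
    exact h1.mul ih

theorem Wk_aesm (hS : MeasurePreserving S μ μ) (hφ : AEStronglyMeasurable φ μ)
    (hc : AEStronglyMeasurable c μ) (k : ℕ) : AEStronglyMeasurable (Wk S φ k c) μ := by
  have h1 : AEStronglyMeasurable (fun x => c (S^[k] x)) μ :=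
    hc.comp_quasiMeasurePreserving (hS.iterate k).quasiMeasurePreserving
  have h2 : AEStronglyMeasurable (fun x => star (co S φ k x)) μ :=
    (ContinuousLinearMap.adjoint (𝕜 := ℂ) (E := E d) (F := E d)).continuous.comp_aestronglyMeasurable
      (co_aesm hS hφ k)
  exact (ContinuousLinearMap.id ℂ (Op d)).aestronglyMeasurable_comp₂ h2 h1

theorem EE_aesm (hS : MeasurePreserving S μ μ) (hφ : AEStronglyMeasurable φ μ)
    (hc : AEStronglyMeasurable c μ) (k k' : ℕ) : AEStronglyMeasurable (EE S φ c k k') μ :=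
  (Wk_aesm hS hφ hc k).inner (Wk_aesm hS hφ hc k')

theorem Wk_norm (hφ : ∀ x, φ x ∈ unitary (Op d)) (k : ℕ) (x : Ω) :
    ‖Wk S φ k c x‖ = ‖c (S^[k] x)‖ :=
  Pool.Agent.Helper16.AZ.unitary_norm (Unitary.star_mem (co_unitary hφ k x)) _

theorem EE_bound (hφ : ∀ x, φ x ∈ unitary (Op d)) {B : ℝ} (hB : ∀ x, ‖c x‖ ≤ B) (k k' : ℕ)
    (x : Ω) : ‖EE S φ c k k' x‖ ≤ B * B := by
  refine (norm_inner_le_norm _ _).trans ?_
  rw [Wk_norm hφ, Wk_norm hφ]
  exact mul_le_mul (hB _) (hB _) (norm_nonneg _) ((norm_nonneg _).trans (hB x))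

theorem NC_bo (S : Ω → Ω) (φ : Ω → Op d) (c : Ω → E d) :
    NC μ bo S φ c = NK μ S φ c := by
  funext k k'
  have h1 : μ[EE S φ c k k'|(bo : SA Ω)] = fun _ => ∫ x, EE S φ c k k' x ∂μ := condExp_bot _
  unfold NC NK
  rw [h1]
  simp

end masses

theorem st_MNK (h : ST_MSK) : ST_MNK := by
  intro Ω _ _ μ _ S S' C d φ c hS hC hφ hφu hc hB
  refine ⟨?_, fun k k' => ?_⟩
  · have h1 := h Ω μ S S' bo d φ c hS (ia_bo hS) hφ hφu hc hB
    rwa [NC_bo] at h1
  · obtain ⟨B, hB⟩ := hB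
    have hm : MemLp (EE S φ c k k') 2 μ :=
      MemLp.of_bound (EE_aesm hS.mp hφ hc k k') (B * B)
        (Eventually.of_forall fun x => EE_bound hφu hB k k' x)
    have hce : MemLp (μ[EE S φ c k k'|C]) 2 μ := hm.condExp (by norm_num)
    have hint : ∫ x, (μ[EE S φ c k k'|C]) x ∂μ = ∫ x, EE S φ c k k' x ∂μ :=
      integral_condExp hC.1
    have h1 := Pool.Agent.Helper96.JZ.norm_integral_sq_le hce
    have h2 := Pool.Agent.Helper96.JZ.var_eq hce
    rw [hint] at h1 h2
    refine ⟨h1, Pool.Agent.Helper73.TWR.ce_sq_le hm, ?_⟩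
    unfold NC NK
    exact h2.symm

end Pool.Agent.Helper96.TWM
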